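import Mathlib

/-!
Function groups `C(X, F)` (compact-open topology, `F` a discrete group): neighbourhoods, clopen
sets, the sequential compactness of the subgroups of the functions with support in a clopen
set.
-/

set_option autoImplicit false

namespace Pool.Agent.MP_6fbfae_gt

open Topology Filter Set
open TopologicalSpace (Clopens)

universe u v

variable {X : Type u} {F : Type v} [TopologicalSpace X] [TopologicalSpace F] [DiscreteTopology F]

theorem agree_mem (f : C(X, F)) {K : Set X} (hK : IsCompact K) :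
    {g : C(X, F) | ∀ x ∈ K, g x = f x} ∈ 𝓝 f := by
  have hfin : (f '' K).Finite := (hK.image f.continuous).finite_of_discrete
  have h1 : IsOpen (⋂ l ∈ f '' K, {g : C(X, F) | MapsTo g (K ∩ f ⁻¹' {l}) {l}}) := by
    refine hfin.isOpen_biInter fun l _ => ?_
    refine ContinuousMap.isOpen_setOfPred_mapsTo ?_ (isOpen_discrete _)
    exact hK.inter_right ((isClosed_discrete {l}).preimage f.continuous)
  have h2 : f ∈ ⋂ l ∈ f '' K, {g : C(X, F) | MapsTo g (K ∩ f ⁻¹' {l}) {l}} := by
    rw [mem_iInter₂]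
    intro l _ x hx
    exact hx.2
  refine mem_of_superset (h1.mem_nhds h2) ?_
  intro g hg x hx
  rw [mem_iInter₂] at hg
  exact hg (f x) ⟨x, hx, rfl⟩ ⟨hx, rfl⟩

theorem hasBasis_nhds (f : C(X, F)) :
    (𝓝 f).HasBasis (fun K : Set X => IsCompact K) fun K => {g | ∀ x ∈ K, g x = f x} := by
  have h1 : (⨅ K ∈ {K : Set X | IsCompact K}, 𝓟 {g : C(X, F) | ∀ x ∈ K, g x = f x}).HasBasis
      (fun K => K ∈ {K : Set X | IsCompact K}) fun K => {g | ∀ x ∈ K, g x = f x} := by
    refine hasBasis_biInf_principal ?_ ⟨∅, isCompact_empty⟩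
    intro K hK K' hK'
    refine ⟨K ∪ K', IsCompact.union hK hK', ?_, ?_⟩
    · intro g hg x hx
      exact hg x (Or.inl hx)
    · intro g hg x hx
      exact hg x (Or.inr hx)
  have h2 : 𝓝 f = ⨅ K ∈ {K : Set X | IsCompact K}, 𝓟 {g : C(X, F) | ∀ x ∈ K, g x = f x} := by
    apply le_antisymm
    · refine le_iInf₂ fun K hK => ?_
      rw [le_principal_iff]
      exact agree_mem f hK
    · rw [ContinuousMap.nhds_compactOpen]
      refine le_iInf₂ fun K hK => le_iInf₂ fun U hU => le_iInf fun hf => ?_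
      refine (iInf₂_le K hK).trans ?_
      rw [principal_mono]
      intro g hg x hx
      rw [hg x hx]
      exact hf hx
  rw [h2]
  exact h1

theorem tendsto_iff {ι : Type*} {l : Filter ι} {u : ι → C(X, F)} {f : C(X, F)} :
    Tendsto u l (𝓝 f) ↔ ∀ K, IsCompact K → ∀ᶠ n in l, ∀ x ∈ K, u n x = f x :=
  (hasBasis_nhds f).tendsto_right_iff

theorem tendsto_eval {ι : Type*} {l : Filter ι} {u : ι → C(X, F)} {f : C(X, F)}
    (h : Tendsto u l (𝓝 f)) (x : X) : ∀ᶠ n in l, u n x = f x :=
  (tendsto_iff.1 h {x} isCompact_singleton).mono fun _ hn => hn x rfl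

/-- the clopen sets `U n` leave every compact set -/
def Null {ι : Type*} (l : Filter ι) (U : ι → Clopens X) : Prop :=
  ∀ K, IsCompact K → ∀ᶠ n in l, ∀ x ∈ K, x ∉ U n

section Grp

variable [Group F]

theorem tendsto_mul [IsTopologicalGroup F] {ι : Type*} {l : Filter ι}
    {u v : ι → C(X, F)} {f g : C(X, F)} (hu : Tendsto u l (𝓝 f)) (hv : Tendsto v l (𝓝 g)) :
    Tendsto (fun n => u n * v n) l (𝓝 (f * g)) := by
  rw [tendsto_iff]
  intro K hK
  filter_upwards [tendsto_iff.1 hu K hK, tendsto_iff.1 hv K hK] with n hn hn' x hx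
  rw [ContinuousMap.mul_apply, ContinuousMap.mul_apply, hn x hx, hn' x hx]

theorem tendsto_inv [IsTopologicalGroup F] {ι : Type*} {l : Filter ι}
    {u : ι → C(X, F)} {f : C(X, F)} (hu : Tendsto u l (𝓝 f)) :
    Tendsto (fun n => (u n)⁻¹) l (𝓝 f⁻¹) := by
  rw [tendsto_iff]
  intro K hK
  filter_upwards [tendsto_iff.1 hu K hK] with n hn x hx
  rw [ContinuousMap.inv_apply, ContinuousMap.inv_apply, hn x hx]

open Classical in
/-- `f` on `U`, `1` outside -/
noncomputable def res (U : Clopens X) (f : C(X, F)) : C(X, F) where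
  toFun x := if x ∈ U then f x else 1
  continuous_toFun := by
    rw [continuous_iff_continuousAt]
    intro x
    by_cases hx : x ∈ U
    · refine f.continuous.continuousAt.congr ?_
      filter_upwards [U.isOpen.mem_nhds hx] with y hy
      exact (if_pos hy).symm
    · refine (continuousAt_const (y := (1 : F))).congr ?_
      have h1 : (U : Set X)ᶜ ∈ 𝓝 x := U.isClopen.compl.isOpen.mem_nhds hx
      filter_upwards [h1] with y hy
      exact (if_neg hy).symm

theorem res_in {U : Clopens X} (f : C(X, F)) {x : X} (hx : x ∈ U) : res U f x = f x :=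
  if_pos hx

theorem res_out {U : Clopens X} (f : C(X, F)) {x : X} (hx : x ∉ U) : res U f x = 1 :=
  if_neg hx

/-- the function with the value `a` on `U` and `1` outside -/
noncomputable def chi (a : F) (U : Clopens X) : C(X, F) := res U (ContinuousMap.const X a)

theorem chi_in {a : F} {U : Clopens X} {x : X} (hx : x ∈ U) : chi a U x = a := res_in _ hx

theorem chi_out {a : F} {U : Clopens X} {x : X} (hx : x ∉ U) : chi a U x = 1 := res_out _ hx

theorem chi_ne {a : F} (ha : a ≠ 1) {U : Clopens X} {x : X} : chi a U x ≠ 1 ↔ x ∈ U := by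
  by_cases hx : x ∈ U
  · rw [chi_in hx]
    exact ⟨fun _ => hx, fun _ => ha⟩
  · rw [chi_out hx]
    exact ⟨fun h => absurd rfl h, fun h => absurd h hx⟩

/-- a limit of functions `chi a (U n)` is of the same form -/
theorem chi_lim {a : F} (ha : a ≠ 1) {ι : Type*} {l : Filter ι} [l.NeBot]
    {U : ι → Clopens X} {p : C(X, F)} (h : Tendsto (fun n => chi a (U n)) l (𝓝 p)) :
    ∃ V : Clopens X, p = chi a V ∧
      ∀ K, IsCompact K → ∀ᶠ n in l, ∀ x ∈ K, (x ∈ U n ↔ x ∈ V) := by
  let V : Clopens X := ⟨p ⁻¹' {a}, (isClopen_discrete _).preimage p.continuous⟩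
  have hV : ∀ x, x ∈ V ↔ p x = a := fun x => Iff.rfl
  have h1 : p = chi a V := by
    ext x
    by_cases hx : x ∈ V
    · rw [chi_in hx]
      exact hx
    · rw [chi_out hx]
      obtain ⟨n, hn⟩ := (tendsto_eval h x).exists
      by_cases hxU : x ∈ U n
      · rw [chi_in hxU] at hn
        exact absurd hn.symm hx
      · rw [chi_out hxU] at hn
        exact hn.symm
  refine ⟨V, h1, fun K hK => ?_⟩
  filter_upwards [tendsto_iff.1 h K hK] with n hn x hx
  have h2 := hn x hx
  rw [h1] at h2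
  rw [← chi_ne ha, h2, chi_ne ha]

theorem null_iff {a : F} (ha : a ≠ 1) {ι : Type*} {l : Filter ι}
    {U : ι → Clopens X} : Null l U ↔ Tendsto (fun n => chi a (U n)) l (𝓝 1) := by
  rw [tendsto_iff]
  refine forall₂_congr fun K hK => ?_
  constructor
  · intro h
    filter_upwards [h] with n hn x hx
    exact chi_out (hn x hx)
  · intro h
    filter_upwards [h] with n hn x hx hxU
    have h1 := hn x hx
    rw [chi_in hxU] at h1
    exact ha h1

variable (F) in
/-- the functions with support in `U` form a sequentially compact set -/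
def SC (U : Clopens X) : Prop :=
  ∀ u : ℕ → C(X, F), (∀ m x, x ∉ U → u m x = 1) →
    ∃ g : C(X, F), ∃ φ : ℕ → ℕ, StrictMono φ ∧ Tendsto (u ∘ φ) atTop (𝓝 g)

theorem SC.mono {U V : Clopens X} (h : SC F U) (hV : ∀ x, x ∈ V → x ∈ U) : SC F V :=
  fun u hu => h u fun m x hx => hu m x fun hxV => hx (hV x hxV)

theorem SC.union [IsTopologicalGroup F] {U V W : Clopens X} (h : SC F U)
    (h' : SC F V) (hW : ∀ x, x ∈ W → x ∈ U ∨ x ∈ V) : SC F W := by
  intro u hu
  obtain ⟨g, φ, hφ, hg⟩ := h (fun m => res U (u m)) fun m x hx => res_out _ hx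
  obtain ⟨g', ψ, hψ, hg'⟩ := h' (fun m => res (V \ U) (u (φ m))) fun m x hx =>
    res_out _ fun hx' => hx hx'.1
  refine ⟨g * g', φ ∘ ψ, hφ.comp hψ, ?_⟩
  have h1 : u ∘ (φ ∘ ψ) = fun m => res U (u (φ (ψ m))) * res (V \ U) (u (φ (ψ m))) := by
    funext m
    ext x
    rw [ContinuousMap.mul_apply]
    by_cases hx : x ∈ U
    · rw [res_in _ hx, res_out (U := V \ U) _ fun hx' => hx'.2 hx, mul_one]
      rfl
    · rw [res_out _ hx, one_mul]
      by_cases hx' : x ∈ V
      · rw [res_in (U := V \ U) _ ⟨hx', hx⟩]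
        rfl
      · rw [res_out (U := V \ U) _ fun h => hx' h.1]
        exact hu _ x fun hxW => (hW x hxW).elim hx hx'
  rw [h1]
  exact tendsto_mul (hg.comp hψ.tendsto_atTop) hg'

theorem SC.tuple {U : Clopens X} (h : SC F U) (n : ℕ) :
    ∀ u : ℕ → Fin n → C(X, F), (∀ m i x, x ∉ U → u m i x = 1) →
      ∃ g : Fin n → C(X, F), ∃ φ : ℕ → ℕ, StrictMono φ ∧ Tendsto (u ∘ φ) atTop (𝓝 g) := by
  induction n with
  | zero =>
    intro u _
    refine ⟨fun i => i.elim0, id, strictMono_id, ?_⟩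
    rw [tendsto_pi_nhds]
    exact fun i => i.elim0
  | succ n ih =>
    intro u hu
    obtain ⟨g, φ, hφ, hg⟩ := ih (fun m i => u m i.succ) fun m i x hx => hu m i.succ x hx
    obtain ⟨g', ψ, hψ, hg'⟩ := h (fun m => u (φ m) 0) fun m x hx => hu (φ m) 0 x hx
    refine ⟨Fin.cons g' g, φ ∘ ψ, hφ.comp hψ, ?_⟩
    rw [tendsto_pi_nhds]
    intro i
    refine Fin.cases ?_ (fun i => ?_) i
    · rw [Fin.cons_zero]
      exact hg'
    · rw [Fin.cons_succ]
      exact (tendsto_pi_nhds.1 hg i).comp hψ.tendsto_atTop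

end Grp

end Pool.Agent.MP_6fbfae_gt
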