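import Pool.Agent.Lib.MP_6fbfae_gt.CX

/-!
Sequential function groups `C(X, F)`: countable tightness, diagonal sequences.
-/

set_option autoImplicit false

namespace Pool.Agent.MP_6fbfae_gt

open Topology Filter Set
open TopologicalSpace (Clopens)

universe u v w

variable {X : Type u} {F : Type v} [TopologicalSpace X] [TopologicalSpace F] [DiscreteTopology F]
  [Group F]

/-- countable tightness, for families of clopen sets -/
theorem ctight (hs : SequentialSpace C(X, F)) {a : F} (ha : a ≠ 1) (L : Set (Clopens X))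
    (hL : ∀ K, IsCompact K → ∃ V ∈ L, ∀ x ∈ K, x ∉ V) :
    ∃ v : ℕ → Clopens X, (∀ n, v n ∈ L) ∧ ∀ K, IsCompact K → ∃ n, ∀ x ∈ K, x ∉ v n := by
  have hC : IsSeqClosed {g : C(X, F) | ∃ B : Set (Clopens X), B ⊆ L ∧ B.Countable ∧
      g ∈ closure ((chi a) '' B)} := by
    intro u p hu hup
    choose B hBL hBc hB using hu
    refine ⟨⋃ n, B n, iUnion_subset hBL, countable_iUnion hBc, ?_⟩
    refine isClosed_closure.mem_of_tendsto hup (Eventually.of_forall fun n => ?_)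
    exact closure_mono (image_mono (subset_iUnion B n)) (hB n)
  have h1 : (1 : C(X, F)) ∈ closure ((chi a) '' L) := by
    rw [mem_closure_iff_nhds_basis (hasBasis_nhds (1 : C(X, F)))]
    intro K hK
    obtain ⟨V, hV, hVK⟩ := hL K hK
    exact ⟨chi a V, ⟨V, hV, rfl⟩, fun x hx => chi_out (hVK x hx)⟩
  have h2 : (1 : C(X, F)) ∈ {g : C(X, F) | ∃ B : Set (Clopens X), B ⊆ L ∧ B.Countable ∧
      g ∈ closure ((chi a) '' B)} := by
    refine closure_minimal ?_ (hs.isClosed_of_seq _ hC) h1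
    rintro g ⟨V, hV, rfl⟩
    exact ⟨{V}, singleton_subset_iff.2 hV, countable_singleton V,
      subset_closure ⟨V, rfl, rfl⟩⟩
  obtain ⟨B, hBL, hBc, hB⟩ := h2
  rw [mem_closure_iff_nhds_basis (hasBasis_nhds (1 : C(X, F)))] at hB
  have hB' : ∀ K, IsCompact K → ∃ V ∈ B, ∀ x ∈ K, x ∉ V := by
    intro K hK
    obtain ⟨g, ⟨V, hV, rfl⟩, hg⟩ := hB K hK
    refine ⟨V, hV, fun x hx hxV => ha ?_⟩
    have h3 := hg x hx
    rwa [chi_in hxV] at h3
  have hne : B.Nonempty := by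
    obtain ⟨V, hV, _⟩ := hB' ∅ isCompact_empty
    exact ⟨V, hV⟩
  obtain ⟨v, hv⟩ := hBc.exists_eq_range hne
  refine ⟨v, fun n => hBL ?_, fun K hK => ?_⟩
  · rw [hv]
    exact mem_range_self n
  · obtain ⟨V, hV, hVK⟩ := hB' K hK
    rw [hv] at hV
    obtain ⟨n, rfl⟩ := hV
    exact ⟨n, hVK⟩

theorem tendsto_res {ι : Type*} {l : Filter ι} {u : ι → C(X, F)} {f : C(X, F)} (U : Clopens X)
    (h : Tendsto u l (𝓝 f)) : Tendsto (fun n => res U (u n)) l (𝓝 (res U f)) := by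
  rw [tendsto_iff]
  intro K hK
  filter_upwards [tendsto_iff.1 h K hK] with n hn x hx
  by_cases hxU : x ∈ U
  · rw [res_in _ hxU, res_in _ hxU, hn x hx]
  · rw [res_out _ hxU, res_out _ hxU]

/-- a convergent diagonal sequence -/
theorem beta [IsTopologicalGroup F] (hs : SequentialSpace C(X, F)) {a : F} (ha : a ≠ 1)
    (U : ℕ → Clopens X) (hU : Null atTop U) (hSC : ∀ k, ¬ SC F (U k))
    (W : ℕ → ℕ → Clopens X) (hW : ∀ j K, IsCompact K → ∃ l, ∀ x ∈ K, x ∉ W j l) :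
    ∃ (V : Clopens X) (j l : ℕ → ℕ), Tendsto j atTop atTop ∧
      ∀ K, IsCompact K → ∀ᶠ i in atTop, ∀ x ∈ K, (x ∈ W (j i) (l i) ↔ x ∈ V) := by
  have h1 : ∀ k, ∃ u : ℕ → C(X, F), (∀ m x, x ∉ U k → u m x = 1) ∧ (∀ m, u m ≠ 1) ∧
      ∀ (g : C(X, F)) (φ : ℕ → ℕ), StrictMono φ → ¬ Tendsto (u ∘ φ) atTop (𝓝 g) := by
    intro k
    have h2 := hSC k
    unfold SC at h2
    push Not at h2
    obtain ⟨u, hu, hu'⟩ := h2
    have h3 : ∀ᶠ m in atTop, u m ≠ 1 := by
      by_contra h4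
      obtain ⟨φ, hφ, hφ'⟩ := extraction_of_frequently_atTop h4
      refine hu' 1 φ hφ (tendsto_const_nhds.congr fun i => ?_)
      exact (hφ' i).symm
    obtain ⟨N, hN⟩ := eventually_atTop.1 h3
    refine ⟨fun m => u (m + N), fun m x hx => hu _ x hx, fun m => hN _ (Nat.le_add_left N m),
      fun g φ hφ h5 => ?_⟩
    exact hu' g (fun i => φ i + N) (fun x y hxy => Nat.add_lt_add_right (hφ hxy) N) h5
  choose d hd hd1 hd' using h1
  let z : ℕ → ℕ → C(X, F) := fun j l => d j l * chi a (W j l \ U j)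
  have hz : ∀ j l, z j l = d j l * chi a (W j l \ U j) := fun _ _ => rfl
  have hzU : ∀ j l, res (U j) (z j l) = d j l := by
    intro j l
    ext x
    by_cases hx : x ∈ U j
    · rw [res_in _ hx, hz, ContinuousMap.mul_apply,
        chi_out (U := W j l \ U j) fun h => h.2 hx, mul_one]
    · rw [res_out _ hx, hd j l x hx]
  have hz1 : ∀ j l, z j l ≠ 1 := by
    intro j l h2
    refine hd1 j l ?_
    rw [← hzU j l, h2]
    ext x
    by_cases hx : x ∈ U j
    · rw [res_in _ hx]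
    · rw [res_out _ hx]
      rfl
  -- the rows do not contain convergent sequences
  have hrow : ∀ j (φ : ℕ → ℕ) (g : C(X, F)), StrictMono φ →
      ¬ Tendsto (fun i => z j (φ i)) atTop (𝓝 g) := by
    intro j φ g hφ h3
    refine hd' j (res (U j) g) φ hφ ?_
    refine (tendsto_res (U j) h3).congr fun i => ?_
    exact hzU j (φ i)
  let B : Set C(X, F) := {g | ∃ j l, g = z j l}
  have hB1 : (1 : C(X, F)) ∈ closure B := by
    rw [mem_closure_iff_nhds_basis (hasBasis_nhds (1 : C(X, F)))]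
    intro L hL
    obtain ⟨j, hj⟩ := (hU L hL).exists
    obtain ⟨l, hl⟩ := hW j L hL
    refine ⟨z j l, ⟨j, l, rfl⟩, fun x hx => ?_⟩
    rw [hz, ContinuousMap.mul_apply, hd j l x (hj x hx),
      chi_out (U := W j l \ U j) fun h => hl x hx h.1, one_mul]
    rfl
  have hBs : ¬ IsSeqClosed B := fun h3 => by
    have h4 := (hs.isClosed_of_seq B h3).closure_eq
    rw [h4] at hB1
    obtain ⟨j, l, hjl⟩ := hB1
    exact hz1 j l hjl.symm
  unfold IsSeqClosed at hBs
  push Not at hBs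
  obtain ⟨w, p, hw, hwp, hp⟩ := hBs
  choose j l hjl using hw
  have hwz : ∀ i, w i = z (j i) (l i) := hjl
  by_cases hj : Tendsto j atTop atTop
  · have h3 : Tendsto (fun i => d (j i) (l i)) atTop (𝓝 (1 : C(X, F))) := by
      rw [tendsto_iff]
      intro L hL
      filter_upwards [hj.eventually (hU L hL)] with i hi x hx
      exact hd _ _ x (hi x hx)
    have h4 : Tendsto (fun i => chi a (W (j i) (l i) \ U (j i))) atTop (𝓝 (1⁻¹ * p)) := by
      refine (tendsto_mul (tendsto_inv h3) hwp).congr fun i => ?_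
      rw [hwz, hz, inv_mul_cancel_left]
    obtain ⟨V, hV1, hV2⟩ := chi_lim ha h4
    refine ⟨V, j, l, hj, fun K hK => ?_⟩
    filter_upwards [hV2 K hK, hj.eventually (hU K hK)] with i hi hi' x hx
    rw [← hi x hx]
    exact ⟨fun h => ⟨h, hi' x hx⟩, fun h => h.1⟩
  · exfalso
    -- infinitely many members in one row
    have h3 : ∃ J, ∃ᶠ i in atTop, j i = J := by
      by_contra hcon
      push Not at hcon
      refine hj (tendsto_atTop.2 fun b => ?_)
      have h4 : ∀ᶠ i in atTop, ∀ J ∈ Finset.range b, j i ≠ J := by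
        rw [Filter.eventually_all_finset]
        intro J _
        exact hcon J
      filter_upwards [h4] with i hi
      by_contra hb
      exact hi (j i) (Finset.mem_range.2 (not_le.1 hb)) rfl
    obtain ⟨J, hJ⟩ := h3
    obtain ⟨φ, hφ, hφJ⟩ := extraction_of_frequently_atTop hJ
    have hwφ : Tendsto (w ∘ φ) atTop (𝓝 p) := hwp.comp hφ.tendsto_atTop
    by_cases hm : Tendsto (l ∘ φ) atTop atTop
    · obtain ⟨ψ, hψ, hψm⟩ := strictMono_subseq_of_tendsto_atTop hm
      refine hrow J ((l ∘ φ) ∘ ψ) p hψm ?_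
      refine (hwφ.comp hψ.tendsto_atTop).congr fun i => ?_
      change w (φ (ψ i)) = z J (l (φ (ψ i)))
      rw [hwz, hφJ]
    · have h4 : ∃ M, ∃ᶠ i in atTop, (l ∘ φ) i = M := by
        by_contra hcon
        push Not at hcon
        refine hm (tendsto_atTop.2 fun b => ?_)
        have h4 : ∀ᶠ i in atTop, ∀ M ∈ Finset.range b, (l ∘ φ) i ≠ M := by
          rw [Filter.eventually_all_finset]
          intro M _
          exact hcon M
        filter_upwards [h4] with i hi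
        by_contra hb
        exact hi ((l ∘ φ) i) (Finset.mem_range.2 (not_le.1 hb)) rfl
      obtain ⟨M, hM⟩ := h4
      obtain ⟨ψ, hψ, hψM⟩ := extraction_of_frequently_atTop hM
      have h5 : ∀ i, w (φ (ψ i)) = z J M := by
        intro i
        rw [hwz, hφJ]
        exact congrArg (z J) (hψM i)
      have h6 : p = z J M := by
        refine tendsto_nhds_unique (hwφ.comp hψ.tendsto_atTop) ?_
        refine tendsto_const_nhds.congr fun i => ?_
        exact (h5 i).symm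
      exact hp ⟨J, M, h6⟩

variable (X) in
/-- every array of clopen sets with null rows has a null diagonal sequence -/
def Alpha : Prop :=
  ∀ S : ℕ → ℕ → Clopens X, (∀ j, Null atTop (S j)) →
    ∃ j m : ℕ → ℕ, Tendsto j atTop atTop ∧ Null atTop fun i => S (j i) (m i)

/-- the bounds of countably many functions -/
theorem exists_bound (g : ℕ → ℕ → ℕ) : ∃ h : ℕ → ℕ, ∀ n j, n ≤ j → g n j ≤ h j :=
  ⟨fun j => (Finset.range (j + 1)).sup fun n => g n j, fun _ j hn =>
    Finset.le_sup (f := fun n => g n j) (Finset.mem_range.2 (Nat.lt_succ_of_le hn))⟩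

/-- pointwise bounds on a dense set suffice -/
theorem alpha_of_bound [IsTopologicalGroup F] (hs : SequentialSpace C(X, F)) {a : F} (ha : a ≠ 1)
    (U : ℕ → Clopens X) (hU : Null atTop U) (hSC : ∀ k, ¬ SC F (U k))
    (S : ℕ → ℕ → Clopens X) (hS : ∀ j, Null atTop (S j)) (Y : Set X) (hY : Dense Y) (h : ℕ → ℕ)
    (hh : ∀ x ∈ Y, ∀ᶠ j in atTop, ∀ m, h j ≤ m → x ∉ S j m) :
    ∃ j m : ℕ → ℕ, Tendsto j atTop atTop ∧ Null atTop fun i => S (j i) (m i) := by
  obtain ⟨V, j, l, hj, hV⟩ := beta hs ha U hU hSC (fun j l => S j (l + h j)) (by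
    intro j K hK
    obtain ⟨N, hN⟩ := eventually_atTop.1 (hS j K hK)
    exact ⟨N, hN _ (Nat.le_add_right N _)⟩)
  refine ⟨j, fun i => l i + h (j i), hj, fun K hK => ?_⟩
  have hVe : ∀ x, x ∉ V := by
    intro x hx
    obtain ⟨y, hyY, hyV⟩ := hY.exists_mem_open V.isOpen ⟨x, hx⟩
    obtain ⟨i, hi, hi'⟩ := ((hV {y} isCompact_singleton).and
      (hj.eventually (hh y hyY))).exists
    exact hi' _ (Nat.le_add_left _ _) ((hi y rfl).2 hyV)
  filter_upwards [hV K hK] with i hi x hx hx'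
  exact hVe x ((hi x hx).1 hx')

/-- few compact sets with a dense union -/
theorem alpha_dense [IsTopologicalGroup F] (hs : SequentialSpace C(X, F)) {a : F} (ha : a ≠ 1)
    (U : ℕ → Clopens X) (hU : Null atTop U) (hSC : ∀ k, ¬ SC F (U k))
    {ι : Type w} (K : ι → Set X) (hK : ∀ i, IsCompact (K i)) (hd : Dense (⋃ i, K i))
    (hb : ∀ g : ι → ℕ → ℕ, ∃ h : ℕ → ℕ, ∀ i, ∀ᶠ n in atTop, g i n ≤ h n) : Alpha X := by
  intro S hS
  have h1 : ∀ i j, ∃ N, ∀ m, N ≤ m → ∀ x ∈ K i, x ∉ S j m := fun i j =>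
    eventually_atTop.1 (hS j (K i) (hK i))
  choose N hN using h1
  obtain ⟨h, hh⟩ := hb N
  refine alpha_of_bound hs ha U hU hSC S hS _ hd h fun x hx => ?_
  obtain ⟨i, hi⟩ := mem_iUnion.1 hx
  filter_upwards [hh i] with j hj m hm
  exact hN i j m (hj.trans hm) x hi

/-- locally constant functions on a clopen set of P-points -/
theorem countable_types (hs : SequentialSpace C(X, F)) {a : F} (ha : a ≠ 1) (V : Clopens X)
    {T : Type*} (f : X → T) (hf : ∀ x ∈ V, ∀ᶠ y in 𝓝 x, f y = f x) :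
    (f '' {x | x ∈ V}).Countable := by
  classical
  -- the points of `V` with value outside `R`
  have hop : ∀ R : Set T, IsOpen {x | x ∈ V ∧ f x ∈ R} := by
    intro R
    rw [isOpen_iff_mem_nhds]
    rintro x ⟨hxV, hxR⟩
    filter_upwards [V.isOpen.mem_nhds hxV, hf x hxV] with y hyV hy
    refine ⟨hyV, ?_⟩
    rw [hy]
    exact hxR
  have hcl : ∀ R : Set T, IsClopen {x | x ∈ V ∧ f x ∈ R} := by
    intro R
    refine ⟨?_, hop R⟩
    have e : {x | x ∈ V ∧ f x ∈ R}ᶜ = (V : Set X)ᶜ ∪ {x | x ∈ V ∧ f x ∈ Rᶜ} := by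
      ext x
      by_cases hx : x ∈ V
      · simp [hx]
      · simp [hx]
    rw [← isOpen_compl_iff, e]
    exact V.isClopen.compl.isOpen.union (hop _)
  obtain ⟨v, hv, hv'⟩ := ctight hs ha
    {W : Clopens X | ∃ t : Finset T, ∀ x, x ∈ W ↔ x ∈ V ∧ f x ∉ t} (by
      intro K hK
      have h1 : IsCompact (K ∩ V) := hK.inter_right V.isClopen.isClosed
      obtain ⟨t, ht, hts⟩ := h1.elim_nhds_subcover (fun x => {y | f y = f x}) (by
        intro x hx
        exact hf x hx.2)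
      refine ⟨⟨{x | x ∈ V ∧ f x ∈ ((t.image f : Finset T) : Set T)ᶜ}, hcl _⟩, ⟨t.image f,
        fun x => Iff.rfl⟩, fun x hx hx' => ?_⟩
      obtain ⟨y, hy, hxy⟩ := mem_iUnion₂.1 (hts ⟨hx, hx'.1⟩)
      refine hx'.2 ?_
      have h2 : f x = f y := hxy
      rw [h2]
      exact Finset.mem_coe.2 (Finset.mem_image_of_mem f hy))
  choose t ht using hv
  refine (countable_iUnion fun n => (t n).finite_toSet.countable).mono ?_
  rintro _ ⟨x, hx, rfl⟩
  obtain ⟨n, hn⟩ := hv' {x} isCompact_singleton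
  have h3 := hn x rfl
  rw [ht n] at h3
  push Not at h3
  exact mem_iUnion.2 ⟨n, Finset.mem_coe.2 (h3 hx)⟩

/-- all points outside a compact set are P-points -/
theorem alpha_ppoint [IsTopologicalGroup F] (hs : SequentialSpace C(X, F)) {a : F} (ha : a ≠ 1)
    (U : ℕ → Clopens X) (hU : Null atTop U) (hSC : ∀ k, ¬ SC F (U k))
    (K₀ : Set X) (hK₀ : IsCompact K₀)
    (hP : ∀ x, x ∉ K₀ → ∀ O : ℕ → Set X, (∀ n, O n ∈ 𝓝 x) → (⋂ n, O n) ∈ 𝓝 x) : Alpha X := by
  intro S hS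
  have h1 : ∀ j, ∃ N, ∀ m, N ≤ m → ∀ x ∈ K₀, x ∉ S j m := fun j =>
    eventually_atTop.1 (hS j K₀ hK₀)
  choose N hN using h1
  have h2 : ∀ x j, ∃ g, ∀ m, g ≤ m → x ∉ S j m := by
    intro x j
    obtain ⟨g, hg⟩ := eventually_atTop.1 (hS j {x} isCompact_singleton)
    exact ⟨g, fun m hm => hg m hm x rfl⟩
  -- the type of a point
  let f : X → ℕ → ℕ → Prop := fun x j m => x ∈ S j m
  have h3 : ∀ t : ℕ → ℕ → Prop, ∃ g : ℕ → ℕ, ∀ x, f x = t → ∀ j m, g j ≤ m → x ∉ S j m := by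
    intro t
    by_cases ht : ∃ x, f x = t
    · obtain ⟨x, hx⟩ := ht
      choose g hg using h2 x
      refine ⟨g, fun y hy j m hm hyS => hg j m hm ?_⟩
      have h4 : f y j m = f x j m := by rw [hy, hx]
      exact (iff_of_eq h4).1 hyS
    · refine ⟨fun _ => 0, fun x hx => absurd ⟨x, hx⟩ ht⟩
  choose g hg using h3
  have hloc : ∀ x, x ∉ K₀ → ∀ᶠ y in 𝓝 x, f y = f x := by
    intro x hx
    have h4 : ∀ j m, {y | y ∈ S j m ↔ x ∈ S j m} ∈ 𝓝 x := by
      intro j m
      by_cases hxS : x ∈ S j m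
      · filter_upwards [(S j m).isOpen.mem_nhds hxS] with y hy
        exact ⟨fun _ => hxS, fun _ => hy⟩
      · filter_upwards [(S j m).isClopen.compl.isOpen.mem_nhds hxS] with y hy
        exact ⟨fun h => absurd h hy, fun h => absurd h hxS⟩
    have h5 : ∀ j, (⋂ m, {y | y ∈ S j m ↔ x ∈ S j m}) ∈ 𝓝 x := fun j => hP x hx _ (h4 j)
    have h6 := hP x hx _ h5
    filter_upwards [h6] with y hy
    funext j m
    exact propext (mem_iInter.1 (mem_iInter.1 hy j) m)
  have hcount : (⋃ j, ⋃ m, f '' {x | x ∈ S j (m + N j)}).Countable := by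
    refine countable_iUnion fun j => countable_iUnion fun m => ?_
    refine countable_types hs ha (S j (m + N j)) f fun x hx => hloc x fun hxK => ?_
    exact hN j (m + N j) (Nat.le_add_left _ _) x hxK hx
  obtain ⟨t, ht⟩ := (hcount.union (countable_singleton (fun _ _ => True))).exists_eq_range
    ⟨_, Or.inr rfl⟩
  obtain ⟨h', hh'⟩ := exists_bound fun n => g (t n)
  refine alpha_of_bound hs ha U hU hSC S hS univ dense_univ (fun j => max (h' j) (N j))
    fun x _ => ?_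
  by_cases hx : ∃ j m, x ∈ S j (m + N j)
  · obtain ⟨j₀, m₀, hx₀⟩ := hx
    have h7 : f x ∈ range t := by
      rw [← ht]
      exact Or.inl (mem_iUnion.2 ⟨j₀, mem_iUnion.2 ⟨m₀, x, hx₀, rfl⟩⟩)
    obtain ⟨n, hn⟩ := h7
    filter_upwards [eventually_ge_atTop n] with j hj m hm
    refine hg (t n) x hn.symm j m (((hh' n j hj).trans (le_max_left _ _)).trans hm)
  · push Not at hx
    refine Eventually.of_forall fun j m hm => ?_
    have h8 := hx j (m - N j)
    rwa [Nat.sub_add_cancel ((le_max_right _ _).trans hm)] at h8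

/-- null sequences have subsequences whose tails have closed unions -/
theorem alpha_union [IsTopologicalGroup F] (hs : SequentialSpace C(X, F)) {a : F} (ha : a ≠ 1)
    (U : ℕ → Clopens X) (hU : Null atTop U) (hSC : ∀ k, ¬ SC F (U k))
    (hc : ∀ T : ℕ → Clopens X, Null atTop T → ∃ φ : ℕ → ℕ, StrictMono φ ∧
      ∀ m, IsClosed (⋃ n, (T (φ (m + n)) : Set X))) : Alpha X := by
  intro S₀ hS₀
  choose φ hφ hcl using fun j => hc (S₀ j) (hS₀ j)
  let S : ℕ → ℕ → Clopens X := fun j n => S₀ j (φ j n)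
  have hS : ∀ j, Null atTop (S j) := fun j K hK => (hφ j).tendsto_atTop.eventually (hS₀ j K hK)
  -- the unions of the tails of the rows
  have hrow : ∀ j m, ∃ V : Clopens X, ∀ x, x ∈ V ↔ ∃ n, m ≤ n ∧ x ∈ S j n := by
    intro j m
    refine ⟨⟨⋃ n, (S j (m + n) : Set X), hcl j m, isOpen_iUnion fun n => (S j (m + n)).isOpen⟩,
      fun x => ⟨fun hx => ?_, ?_⟩⟩
    · obtain ⟨n, hn⟩ := mem_iUnion.1 (show x ∈ ⋃ n, (S j (m + n) : Set X) from hx)
      exact ⟨m + n, Nat.le_add_right m n, hn⟩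
    · rintro ⟨n, hn, hx⟩
      refine (mem_iUnion.2 ⟨n - m, ?_⟩ : x ∈ ⋃ n, (S j (m + n) : Set X))
      rw [Nat.add_sub_cancel' hn]
      exact hx
  choose Q hQ using hrow
  have hR : ∀ j m, ∃ V : Clopens X, ∀ x, x ∈ V ↔ ∃ i ≤ j, x ∈ Q i m := by
    intro j
    induction j with
    | zero =>
      intro n
      refine ⟨Q 0 n, fun x => ⟨fun h => ⟨0, le_rfl, h⟩, ?_⟩⟩
      rintro ⟨i, hi, h⟩
      rwa [Nat.le_zero.1 hi] at h
    | succ j ih =>
      intro n
      obtain ⟨V, hV⟩ := ih n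
      refine ⟨V ⊔ Q (j + 1) n, fun x => ⟨?_, ?_⟩⟩
      · rintro (h | h)
        · obtain ⟨i, hi, hx⟩ := (hV x).1 h
          exact ⟨i, hi.trans (Nat.le_succ j), hx⟩
        · exact ⟨j + 1, le_rfl, h⟩
      · rintro ⟨i, hi, hx⟩
        rcases Nat.le_succ_iff_eq_or_le.1 hi with h | h
        · rw [h] at hx
          exact Or.inr hx
        · exact Or.inl ((hV x).2 ⟨i, h, hx⟩)
  choose R hR using hR
  have hmono : ∀ j j' m m', j ≤ j' → m' ≤ m → ∀ x, x ∈ R j m → x ∈ R j' m' := by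
    intro j j' m m' hj hm x hx
    obtain ⟨i, hi, hxi⟩ := (hR j m x).1 hx
    obtain ⟨n, hn, hxn⟩ := (hQ i m x).1 hxi
    exact (hR j' m' x).2 ⟨i, hi.trans hj, (hQ i m' x).2 ⟨n, hm.trans hn, hxn⟩⟩
  have hSR : ∀ j m x, x ∈ S j m → x ∈ R j m := by
    intro j m x hx
    exact (hR j m x).2 ⟨j, le_rfl, (hQ j m x).2 ⟨m, le_rfl, hx⟩⟩
  have hRn : ∀ j, ∀ K, IsCompact K → ∃ N, ∀ x ∈ K, x ∉ R j N := by
    intro j K hK
    have h1 : ∀ i, ∃ N, ∀ n, N ≤ n → ∀ x ∈ K, x ∉ S i n := fun i =>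
      eventually_atTop.1 (hS i K hK)
    choose N hN using h1
    refine ⟨(Finset.range (j + 1)).sup N, fun x hx hxR => ?_⟩
    obtain ⟨i, hi, hxi⟩ := (hR j _ x).1 hxR
    obtain ⟨n, hn, hxn⟩ := (hQ i _ x).1 hxi
    refine hN i n (le_trans ?_ hn) x hx hxn
    exact Finset.le_sup (f := N) (Finset.mem_range.2 (Nat.lt_succ_of_le hi))
  -- the limits of the diagonal sequences
  obtain ⟨v, hv, hv'⟩ := ctight hs ha {V : Clopens X | ∃ J D : ℕ → ℕ, Tendsto J atTop atTop ∧
      ∀ K, IsCompact K → ∀ᶠ i in atTop, ∀ x ∈ K, (x ∈ R (J i) (D i) ↔ x ∈ V)} (by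
    intro K hK
    choose N hN using fun j => hRn j K hK
    obtain ⟨V, j, l, hj, hV⟩ := beta hs ha U hU hSC (fun j l => R j (l + N j)) (by
      intro j L hL
      obtain ⟨M, hM⟩ := hRn j L hL
      exact ⟨M, fun x hx hxR => hM x hx (hmono j j _ M le_rfl (Nat.le_add_right _ _) x hxR)⟩)
    refine ⟨V, ⟨j, fun i => l i + N (j i), hj, hV⟩, fun x hx hxV => ?_⟩
    obtain ⟨i, hi⟩ := (hV K hK).exists
    exact hN (j i) x hx (hmono _ _ _ _ le_rfl (Nat.le_add_left _ _) x ((hi x hx).2 hxV)))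
  choose J D hJ hD using hv
  have h1 : ∀ n j, ∃ i, j ≤ i ∧ j ≤ J n i := by
    intro n j
    exact ((eventually_ge_atTop j).and ((hJ n).eventually (eventually_ge_atTop j))).exists
  choose e he he' using h1
  obtain ⟨h, hh⟩ := exists_bound fun n j => D n (e n j)
  refine ⟨id, fun j => φ j (h j), tendsto_id, fun K hK => ?_⟩
  obtain ⟨n, hn⟩ := hv' K hK
  have h2 : ∀ᶠ i in atTop, ∀ x ∈ K, x ∉ R (J n i) (D n i) := by
    filter_upwards [hD n K hK] with i hi x hx hxR
    exact hn x hx ((hi x hx).1 hxR)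
  have h3 : Tendsto (e n) atTop atTop := tendsto_atTop_mono (he n) tendsto_id
  filter_upwards [h3.eventually h2, eventually_ge_atTop n] with j hj hnj x hx hxS
  exact hj x hx (hmono j _ (h j) _ (he' n j) (hh n j hnj) x (hSR _ _ x hxS))

end Pool.Agent.MP_6fbfae_gt
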