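import Pool.Agent.Lib.MP_6fbfae_gt.CY

/-!
Finite powers of sequential function groups `C(X, F)`, `F` discrete.
-/

set_option autoImplicit false

namespace Pool.Agent.MP_6fbfae_gt

open Topology Filter Set
open TopologicalSpace (Clopens)

universe u v w

variable {X : Type u} {F : Type v} [TopologicalSpace X] [TopologicalSpace F] [DiscreteTopology F]
  [Group F]

/-- the clopen sets which contain all supports of a member of `A` -/
def Sup {n : ℕ} (A : Set (Fin n → C(X, F))) (U : Clopens X) : Prop :=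
  ∃ f ∈ A, ∀ i x, x ∉ U → f i x = 1

/-- if `A` meets every basic neighbourhood of `1` then `1` is in the closure of the `chi a U` -/
theorem one_mem_closure {n : ℕ} (A : Set (Fin n → C(X, F))) (a : F)
    (h : ∀ K, IsCompact K → ∃ f ∈ A, ∀ i, ∀ x ∈ K, f i x = 1) :
    (1 : C(X, F)) ∈ closure {g | ∃ U, Sup A U ∧ g = chi a U} := by
  rw [mem_closure_iff_nhds_basis (hasBasis_nhds (1 : C(X, F)))]
  intro K hK
  obtain ⟨f, hfA, hf⟩ := h K hK
  let U : Clopens X := ⟨(fun x i => f i x) ⁻¹' {v | ∃ i, v i ≠ 1},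
    (isClopen_discrete _).preimage (continuous_pi fun i => (f i).continuous)⟩
  have hU : ∀ x, x ∈ U ↔ ∃ i, f i x ≠ 1 := fun x => Iff.rfl
  refine ⟨chi a U, ⟨U, ⟨f, hfA, fun i x hx => ?_⟩, rfl⟩, fun x hx => ?_⟩
  · by_contra h0
    exact hx ((hU x).2 ⟨i, h0⟩)
  · rw [chi_out]
    · rfl
    · rw [hU]
      rintro ⟨i, hi⟩
      exact hi (hf i x hx)

/-- first case: clopen sets which leave every compact set are eventually `SC` -/
theorem caseP [IsTopologicalGroup F] (hs : SequentialSpace C(X, F)) {a : F} (ha : a ≠ 1)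
    (hP : ∀ U : ℕ → Clopens X, Null atTop U → ∀ᶠ k in atTop, SC F (U k)) {n : ℕ}
    (A : Set (Fin n → C(X, F))) (hA : IsSeqClosed A) (h1 : (1 : Fin n → C(X, F)) ∉ A) :
    ∃ K, IsCompact K ∧ ∀ f ∈ A, ∃ i, ∃ x ∈ K, f i x ≠ 1 := by
  by_contra hcon
  push Not at hcon
  have hcl := one_mem_closure A a hcon
  have hR : IsSeqClosed {g : C(X, F) | ∃ U, (SC F U → Sup A U) ∧ g = chi a U} := by
    intro u p hu hup
    choose U hU huU using hu
    have hup' : Tendsto (fun j => chi a (U j)) atTop (𝓝 p) := by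
      have e : (fun j => chi a (U j)) = u := funext fun j => (huU j).symm
      rw [e]
      exact hup
    obtain ⟨V, hpV, hV⟩ := chi_lim ha hup'
    refine ⟨V, fun hSC => ?_, hpV⟩
    have e1 : ∀ᶠ j in atTop, SC F (U j \ V) := by
      refine hP _ fun K hK => ?_
      filter_upwards [hV K hK] with j hj x hx hx'
      exact hx'.2 ((hj x hx).1 hx'.1)
    have e2 : ∀ᶠ j in atTop, Sup A (U j) := by
      filter_upwards [e1] with j hj
      refine hU j (hSC.union hj fun x hx => ?_)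
      by_cases hxV : x ∈ V
      · exact Or.inl hxV
      · exact Or.inr ⟨hx, hxV⟩
    obtain ⟨N, hN⟩ := eventually_atTop.1 e2
    have hN' : ∀ j, Sup A (U (j + N)) := fun j => hN _ (Nat.le_add_left N j)
    choose f hfA hf using hN'
    obtain ⟨g, φ, hφ, hg⟩ := hSC.tuple n (fun j i => res V (f j i)) fun j i x hx => res_out _ hx
    have hg1 : ∀ i x, x ∉ V → g i x = 1 := by
      intro i x hx
      obtain ⟨m, hm⟩ := (tendsto_eval (tendsto_pi_nhds.1 hg i) x).exists
      rw [← hm]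
      exact res_out _ hx
    refine ⟨g, hA (x := f ∘ φ) (fun m => hfA _) ?_, hg1⟩
    rw [tendsto_pi_nhds]
    intro i
    rw [tendsto_iff]
    intro K hK
    have e3 : ∀ᶠ m in atTop, ∀ x ∈ K, (x ∈ U (φ m + N) ↔ x ∈ V) := by
      have e4 : Tendsto (fun m => φ m + N) atTop atTop :=
        tendsto_atTop_mono (fun m => Nat.le_add_right _ _) hφ.tendsto_atTop
      exact e4.eventually (hV K hK)
    filter_upwards [e3, tendsto_iff.1 (tendsto_pi_nhds.1 hg i) K hK] with m hm hm' x hx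
    by_cases hxV : x ∈ V
    · rw [← hm' x hx]
      exact (res_in _ hxV).symm
    · rw [hg1 i x hxV]
      exact hf _ i x fun hxU => hxV ((hm x hx).1 hxU)
  have h2 : (1 : C(X, F)) ∈ {g : C(X, F) | ∃ U, (SC F U → Sup A U) ∧ g = chi a U} := by
    refine closure_minimal ?_ (hs.isClosed_of_seq _ hR) hcl
    rintro g ⟨U, hU, rfl⟩
    exact ⟨U, fun _ => hU, rfl⟩
  obtain ⟨U, hU, hU1⟩ := h2
  have hUe : ∀ x, x ∉ U := by
    intro x hx
    have h3 := (chi_ne ha).2 hx
    rw [← hU1] at h3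
    exact h3 rfl
  have hSC : SC F U := by
    intro u hu
    refine ⟨1, id, strictMono_id, ?_⟩
    have e : u ∘ id = fun _ => (1 : C(X, F)) := by
      funext m
      ext x
      exact hu m x (hUe x)
    rw [e]
    exact tendsto_const_nhds
  obtain ⟨f, hfA, hf⟩ := hU hSC
  refine h1 ?_
  have e : f = 1 := by
    funext i
    ext x
    exact hf i x (hUe x)
  rwa [e] at hfA

/-- second case: null diagonal sequences -/
theorem caseG (hs : SequentialSpace C(X, F)) {a : F} (ha : a ≠ 1) (hα : Alpha X) {n : ℕ}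
    (A : Set (Fin n → C(X, F))) (hA : IsSeqClosed A) (h1 : (1 : Fin n → C(X, F)) ∉ A) :
    ∃ K, IsCompact K ∧ ∀ f ∈ A, ∃ i, ∃ x ∈ K, f i x ≠ 1 := by
  by_contra hcon
  push Not at hcon
  have hcl := one_mem_closure A a hcon
  have hR : IsSeqClosed {g : C(X, F) | ∃ V : Clopens X, g = chi a V ∧
      ∃ W : ℕ → Clopens X, (∀ m, Sup A (W m)) ∧ Null atTop fun m => W m \ V} := by
    intro u p hu hup
    choose V hV W hW hWV using hu
    have hup' : Tendsto (fun j => chi a (V j)) atTop (𝓝 p) := by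
      have e : (fun j => chi a (V j)) = u := funext fun j => (hV j).symm
      rw [e]
      exact hup
    obtain ⟨V', hpV, hV'⟩ := chi_lim ha hup'
    obtain ⟨j, m, hj, hjm⟩ := hα (fun j m => W j m \ V j) hWV
    refine ⟨V', hpV, fun i => W (j i) (m i), fun i => hW _ _, fun L hL => ?_⟩
    filter_upwards [hjm L hL, hj.eventually (hV' L hL)] with i hi hi' x hx hx'
    exact hi x hx ⟨hx'.1, fun h3 => hx'.2 ((hi' x hx).1 h3)⟩
  have h2 : (1 : C(X, F)) ∈ {g : C(X, F) | ∃ V : Clopens X, g = chi a V ∧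
      ∃ W : ℕ → Clopens X, (∀ m, Sup A (W m)) ∧ Null atTop fun m => W m \ V} := by
    refine closure_minimal ?_ (hs.isClosed_of_seq _ hR) hcl
    rintro g ⟨V, hV, rfl⟩
    exact ⟨V, rfl, fun _ => V, fun _ => hV, fun L _ => Eventually.of_forall fun _ x _ hx =>
      hx.2 hx.1⟩
  obtain ⟨V, hV, W, hW, hWV⟩ := h2
  have hVe : ∀ x, x ∉ V := by
    intro x hx
    have h3 := (chi_ne ha).2 hx
    rw [← hV] at h3
    exact h3 rfl
  choose f hfA hf using hW
  refine h1 (hA (x := f) hfA ?_)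
  rw [tendsto_pi_nhds]
  intro i
  rw [tendsto_iff]
  intro L hL
  filter_upwards [hWV L hL] with m hm x hx
  exact hf m i x fun hxW => hm x hx ⟨hxW, hVe x⟩

variable (X) in
/-- the hypothesis on the space -/
def Hyp : Prop :=
  (∀ T : ℕ → Clopens X, Null atTop T → ∃ φ : ℕ → ℕ, StrictMono φ ∧
    ∀ m, IsClosed (⋃ n, (T (φ (m + n)) : Set X))) ∨
  (∃ (ι : Type u) (K : ι → Set X), (∀ i, IsCompact (K i)) ∧ Dense (⋃ i, K i) ∧
    ∀ g : ι → ℕ → ℕ, ∃ h : ℕ → ℕ, ∀ i, ∀ᶠ n in atTop, g i n ≤ h n) ∨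
  (∃ K : Set X, IsCompact K ∧
    ∀ x, x ∉ K → ∀ O : ℕ → Set X, (∀ n, O n ∈ 𝓝 x) → (⋂ n, O n) ∈ 𝓝 x)

/-- the basic neighbourhoods of `1` in the finite powers -/
theorem key [IsTopologicalGroup F] (hs : SequentialSpace C(X, F)) {a : F} (ha : a ≠ 1)
    (hX : Hyp X) {n : ℕ}
    (A : Set (Fin n → C(X, F))) (hA : IsSeqClosed A) (h1 : (1 : Fin n → C(X, F)) ∉ A) :
    ∃ K, IsCompact K ∧ ∀ f ∈ A, ∃ i, ∃ x ∈ K, f i x ≠ 1 := by
  by_cases hP : ∀ U : ℕ → Clopens X, Null atTop U → ∀ᶠ k in atTop, SC F (U k)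
  · exact caseP hs ha hP A hA h1
  · push Not at hP
    obtain ⟨U, hU, hSC⟩ := hP
    obtain ⟨φ, hφ, hφSC⟩ := extraction_of_frequently_atTop hSC
    have hUφ : Null atTop (fun i => U (φ i)) := fun K hK => hφ.tendsto_atTop.eventually (hU K hK)
    refine caseG hs ha ?_ A hA h1
    rcases hX with hc | ⟨ι, K, hK, hd, hb⟩ | ⟨K₀, hK₀, hP₀⟩
    · exact alpha_union hs ha _ hUφ hφSC hc
    · exact alpha_dense hs ha _ hUφ hφSC K hK hd hb
    · exact alpha_ppoint hs ha _ hUφ hφSC K₀ hK₀ hP₀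

/-- all finite powers are sequential -/
theorem pow_sequential [IsTopologicalGroup F] (hs : SequentialSpace C(X, F)) (hX : Hyp X)
    (n : ℕ) : SequentialSpace (Fin n → C(X, F)) := by
  by_cases hF : ∃ a : F, a ≠ 1
  · obtain ⟨a, ha⟩ := hF
    refine ⟨fun A hA => ?_⟩
    rw [← isOpen_compl_iff, isOpen_iff_mem_nhds]
    intro p hp
    let T : (Fin n → C(X, F)) → Fin n → C(X, F) := fun f => p * f
    have hA' : IsSeqClosed (T ⁻¹' A) := by
      intro u q hu huq
      refine hA (x := fun m => T (u m)) hu ?_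
      rw [tendsto_pi_nhds] at huq ⊢
      intro i
      exact tendsto_mul tendsto_const_nhds (huq i)
    have hp' : (1 : Fin n → C(X, F)) ∉ T ⁻¹' A := by
      intro h
      refine hp ?_
      have e : T 1 = p := mul_one p
      rw [← e]
      exact h
    obtain ⟨K, hK, hKA⟩ := key hs ha hX (T ⁻¹' A) hA' hp'
    have h1 : {f : Fin n → C(X, F) | ∀ i, ∀ x ∈ K, f i x = p i x} ∈ 𝓝 p := by
      have h2 : ∀ i, ∀ᶠ f in 𝓝 p, ∀ x ∈ K, f i x = p i x := fun i =>
        (continuous_apply i).continuousAt.eventually (agree_mem (p i) hK)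
      exact eventually_all.2 h2
    refine mem_of_superset h1 fun f hf hfA => ?_
    obtain ⟨i, x, hx, hne⟩ := hKA (p⁻¹ * f) (by
      change T (p⁻¹ * f) ∈ A
      have e : T (p⁻¹ * f) = f := mul_inv_cancel_left p f
      rw [e]
      exact hfA)
    refine hne ?_
    have e : (p⁻¹ * f) i x = (p i x)⁻¹ * f i x := rfl
    rw [e, hf i x hx, inv_mul_cancel]
  · push Not at hF
    have : Subsingleton F := ⟨fun x y => by rw [hF x, hF y]⟩
    have : Subsingleton C(X, F) := ⟨fun f g => ContinuousMap.ext fun x => Subsingleton.elim _ _⟩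
    have : Subsingleton (Fin n → C(X, F)) := inferInstance
    exact inferInstance

/-- the square is sequential -/
theorem sq_sequential [IsTopologicalGroup F] (hs : SequentialSpace C(X, F)) (hX : Hyp X) :
    SequentialSpace (C(X, F) × C(X, F)) := by
  have h := pow_sequential hs hX 2
  exact (Homeomorph.finTwoArrow (X := C(X, F))).isQuotientMap.sequentialSpace

end Pool.Agent.MP_6fbfae_gt
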